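import Mathlib
import Pool.Agent.H7.TF.Targets

/-!
# MP_7a929c_al, module A9 : Euler characteristic of the cut map (helper48)
-/

set_option autoImplicit false
set_option linter.unusedSectionVars false

namespace TF48

open Equiv Pool.Agent.H7.TF

variable {D : Type} [Fintype D] [DecidableEq D]

theorem sc_of_off {α ω : Perm D} {O : Set D} (off : ∀ z, z ∉ O → ω z = z) {z : D}
    (hz : ∀ w, α.SameCycle z w → w ∉ O) (w : D) :
    (ω * α).SameCycle z w ↔ α.SameCycle z w := by
  have key : ∀ n : ℕ, ((ω * α) ^ n) z = (α ^ n) z := by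
    intro n
    induction n with
    | zero => simp
    | succ n ih =>
      have h1 : (α ^ (n + 1)) z ∉ O := hz _ ⟨((n + 1 : ℕ) : ℤ), by rw [zpow_natCast]⟩
      have h2 : (α ^ (n + 1)) z = α ((α ^ n) z) := by rw [pow_succ']; rfl
      have h3 : ((ω * α) ^ (n + 1)) z = ω (α (((ω * α) ^ n) z)) := by rw [pow_succ']; rfl
      rw [h3, ih, ← h2, off _ h1]
  constructor
  · intro h
    obtain ⟨n, hn⟩ := h.exists_nat_pow_eq
    rw [key] at hn
    exact ⟨n, by simpa using hn⟩
  · intro h
    obtain ⟨n, hn⟩ := h.exists_nat_pow_eq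
    rw [← key] at hn
    exact ⟨n, by simpa using hn⟩

theorem nmt_le {α β : Perm D} {O : Set D}
    (h : ∀ z, (∀ w, α.SameCycle z w → w ∉ O) → ∀ w, (β.SameCycle z w ↔ α.SameCycle z w)) :
    Nat.card {c : Quotient (Perm.SameCycle.setoid α) // ¬ ∃ x ∈ O, Quotient.mk _ x = c} ≤
    Nat.card {c : Quotient (Perm.SameCycle.setoid β) // ¬ ∃ x ∈ O, Quotient.mk _ x = c} := by
  classical
  have h0 : ∀ c : {c : Quotient (Perm.SameCycle.setoid α) // ¬ ∃ x ∈ O, Quotient.mk _ x = c},
      ∀ w, α.SameCycle c.1.out w → w ∉ O := by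
    rintro ⟨c, hc⟩ w hw hwO
    apply hc
    refine ⟨w, hwO, ?_⟩
    have h1 : Quotient.mk (Perm.SameCycle.setoid α) c.out = c := Quotient.out_eq c
    rw [← h1]
    exact Quotient.sound hw.symm
  refine Nat.card_le_card_of_injective (fun c => ⟨Quotient.mk _ c.1.out, ?_⟩) ?_
  · rintro ⟨x, hx, hxc⟩
    have h1 : β.SameCycle x c.1.out := Quotient.exact hxc
    exact h0 c x ((h _ (h0 c) x).1 h1.symm) hx
  · intro c c' hcc
    have h1 : β.SameCycle c.1.out c'.1.out := Quotient.exact (Subtype.ext_iff.1 hcc)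
    have h2 := (h _ (h0 c) _).1 h1
    apply Subtype.ext
    rw [← Quotient.out_eq c.1, ← Quotient.out_eq c'.1]
    exact Quotient.sound h2

theorem nmt_eq {α ω : Perm D} {O : Set D} (off : ∀ z, z ∉ O → ω z = z) :
    Nat.card {c : Quotient (Perm.SameCycle.setoid (ω * α)) // ¬ ∃ x ∈ O, Quotient.mk _ x = c} =
    Nat.card {c : Quotient (Perm.SameCycle.setoid α) // ¬ ∃ x ∈ O, Quotient.mk _ x = c} := by
  apply le_antisymm
  · apply nmt_le
    intro z hz w
    have off' : ∀ z, z ∉ O → ω⁻¹ z = z := by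
      intro z hz
      rw [Perm.inv_eq_iff_eq]
      exact (off z hz).symm
    have h1 := sc_of_off (α := ω * α) off' hz w
    rwa [inv_mul_cancel_left] at h1
  · apply nmt_le
    intro z hz w
    exact sc_of_off off hz w

theorem nc_split (α : Perm D) (O : Set D) :
    nc α = Pool.Agent.H7.TF.mt α O +
      Nat.card {c : Quotient (Perm.SameCycle.setoid α) // ¬ ∃ x ∈ O, Quotient.mk _ x = c} := by
  classical
  unfold nc Pool.Agent.H7.TF.mt
  have h1 : Nat.card (Quotient (Perm.SameCycle.setoid α)) =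
      Nat.card ({c : Quotient (Perm.SameCycle.setoid α) // ∃ x ∈ O, Quotient.mk _ x = c} ⊕
        {c : Quotient (Perm.SameCycle.setoid α) // ¬ ∃ x ∈ O, Quotient.mk _ x = c}) :=
    Nat.card_congr (Equiv.sumCompl _).symm
  rw [h1, Nat.card_sum]

theorem mt_of_uniq (α : Perm D) (O : Set D)
    (uniq : ∀ x ∈ O, ∀ y ∈ O, α.SameCycle x y → x = y) : Pool.Agent.H7.TF.mt α O = Nat.card O := by
  unfold Pool.Agent.H7.TF.mt
  symm
  refine Nat.card_eq_of_bijective
    (fun x : O => (⟨Quotient.mk _ x.1, x.1, x.2, rfl⟩ :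
      {c : Quotient (Perm.SameCycle.setoid α) // ∃ x ∈ O, Quotient.mk _ x = c})) ⟨?_, ?_⟩
  · intro x y hxy
    have h1 : α.SameCycle x.1 y.1 := Quotient.exact (Subtype.ext_iff.1 hxy)
    exact Subtype.ext (uniq _ x.2 _ y.2 h1)
  · rintro ⟨c, x, hx, hxc⟩
    exact ⟨⟨x, hx⟩, Subtype.ext hxc⟩

theorem A9 : T_A9 := by
  intro D _ _ σ θ ω O hP hcon hcut hne
  have off' : ∀ z, z ∉ O → ω⁻¹ z = z := by
    intro z hz
    rw [Perm.inv_eq_iff_eq]
    exact (hcut.off z hz).symm
  -- (a)
  have e1 := nc_split (ω * σ) O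
  have e2 := nc_split σ O
  have e3 := nmt_eq (α := σ) hcut.off
  have e4 := mt_of_uniq (ω * σ) O hcut.uniq
  -- (b)
  have f1 := nc_split (ω * (σ * θ)) O
  have f2 := nc_split (σ * θ) O
  have f3 := nmt_eq (α := σ * θ) hcut.off
  -- (c)
  have g1 := hcut.planar
  unfold Planar at g1 hP
  have hne' : Nonempty D := ⟨hne.some⟩
  have g2 : comps σ θ = 1 := by
    unfold comps
    rw [Nat.card_eq_one_iff_unique]
    refine ⟨⟨fun a b => ?_⟩, ⟨Quotient.mk _ hne.some⟩⟩
    obtain ⟨x, rfl⟩ := Quotient.exists_rep a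
    obtain ⟨y, rfl⟩ := Quotient.exists_rep b
    exact Quotient.sound (hcon x y)
  rw [g2] at hP
  rw [mul_assoc] at g1
  constructor
  · rw [e3, e4] at e1
    rw [f3] at f1
    omega
  · intro x
    by_contra hno
    push Not at hno
    -- Z is closed under sigma
    have hZ : ∀ y, conn (ω * σ) θ x y → y ∉ O := fun y hy hyO => hno y hyO hy
    have hstep : ∀ y, conn (ω * σ) θ x y → conn (ω * σ) θ x (σ y) := by
      intro y hy
      have h1 : conn (ω * σ) θ y (ω (σ y)) := by
        have h2 : Perm.SameCycle.setoid (ω * σ) ≤ conn (ω * σ) θ := le_sup_left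
        apply h2
        exact ⟨1, by simp⟩
      have h3 : conn (ω * σ) θ x (ω (σ y)) := (conn (ω * σ) θ).trans hy h1
      have h4 : σ y ∉ O := by
        intro h5
        exact hZ _ h3 (hcut.on _ h5)
      rwa [hcut.off _ h4] at h3
    have hcl : ∀ y z, σ.SameCycle y z → conn (ω * σ) θ x y → conn (ω * σ) θ x z := by
      intro y z hyz hy
      obtain ⟨n, hn⟩ := hyz.exists_nat_pow_eq
      rw [← hn]
      clear hn
      induction n with
      | zero => simpa using hy
      | succ n ih =>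
        have : (σ ^ (n + 1)) y = σ ((σ ^ n) y) := by rw [pow_succ']; rfl
        rw [this]
        exact hstep _ ih
    let S : Setoid D :=
      { r := fun y z => conn (ω * σ) θ x y ↔ conn (ω * σ) θ x z
        iseqv := ⟨fun _ => Iff.rfl, fun h => h.symm, fun h h' => h.trans h'⟩ }
    have hle : conn σ θ ≤ S := by
      apply sup_le
      · intro y z hyz
        exact ⟨hcl y z hyz, hcl z y (Perm.SameCycle.symm hyz)⟩
      · intro y z hyz
        have h2 : Perm.SameCycle.setoid θ ≤ conn (ω * σ) θ := le_sup_right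
        have h3 : conn (ω * σ) θ y z := h2 hyz
        exact ⟨fun h => (conn (ω * σ) θ).trans h h3,
          fun h => (conn (ω * σ) θ).trans h ((conn (ω * σ) θ).symm h3)⟩
    have h5 : S x hne.some := hle (hcon x hne.some)
    have h6 : conn (ω * σ) θ x hne.some := h5.1 ((conn (ω * σ) θ).refl x)
    exact hZ _ h6 hne.some_mem

end TF48
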