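import Mathlib
import Pool.Agent.H7.TF.Targets

/-!
# MP_7a929c_al, module B5 : gluing two pictures (helper48)
-/

set_option autoImplicit false
set_option linter.unusedSectionVars false

namespace TF48

open Equiv Pool.Agent.H7.TF

/-! ### Setoids on a sum -/

section SumSetoid

variable {D1 D2 : Type}

/-- the disjoint union of two setoids -/
def sumS (S1 : Setoid D1) (S2 : Setoid D2) : Setoid (D1 ⊕ D2) where
  r := fun x y => match x, y with
    | Sum.inl a, Sum.inl b => S1 a b
    | Sum.inr a, Sum.inr b => S2 a b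
    | _, _ => False
  iseqv := by
    refine ⟨?_, ?_, ?_⟩
    · rintro (a | a)
      · exact S1.refl a
      · exact S2.refl a
    · rintro (a | a) (b | b) h
      · exact S1.symm h
      · exact h
      · exact h
      · exact S2.symm h
    · rintro (a | a) (b | b) (c | c) h h'
      · exact S1.trans h h'
      · exact h'
      · exact h.elim
      · exact h.elim
      · exact h.elim
      · exact h.elim
      · exact h'
      · exact S2.trans h h'

theorem sumS_ll {S1 : Setoid D1} {S2 : Setoid D2} {a b : D1} :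
    sumS S1 S2 (Sum.inl a) (Sum.inl b) ↔ S1 a b := Iff.rfl

theorem sumS_rr {S1 : Setoid D1} {S2 : Setoid D2} {a b : D2} :
    sumS S1 S2 (Sum.inr a) (Sum.inr b) ↔ S2 a b := Iff.rfl

theorem sumS_lr {S1 : Setoid D1} {S2 : Setoid D2} {a : D1} {b : D2} :
    ¬ sumS S1 S2 (Sum.inl a) (Sum.inr b) := fun h => h

theorem sumS_rl {S1 : Setoid D1} {S2 : Setoid D2} {a : D1} {b : D2} :
    ¬ sumS S1 S2 (Sum.inr b) (Sum.inl a) := fun h => h

theorem card_sumS [Finite D1] [Finite D2] (S1 : Setoid D1) (S2 : Setoid D2) :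
    Nat.card (Quotient (sumS S1 S2)) = Nat.card (Quotient S1) + Nat.card (Quotient S2) := by
  rw [← Nat.card_sum]
  refine Nat.card_congr ⟨?_, ?_, ?_, ?_⟩
  · refine Quotient.lift (Sum.elim (fun a => Sum.inl (Quotient.mk S1 a))
      (fun b => Sum.inr (Quotient.mk S2 b))) ?_
    rintro (a | a) (b | b) h
    · exact congrArg Sum.inl (Quotient.sound h)
    · exact (sumS_lr h).elim
    · exact (sumS_rl h).elim
    · exact congrArg Sum.inr (Quotient.sound h)
  · refine Sum.elim (Quotient.lift (fun a => Quotient.mk _ (Sum.inl a)) ?_)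
      (Quotient.lift (fun a => Quotient.mk _ (Sum.inr a)) ?_)
    · intro a b h
      exact Quotient.sound h
    · intro a b h
      exact Quotient.sound h
  · intro q
    induction q using Quotient.inductionOn with
    | h x => rcases x with a | a <;> rfl
  · rintro (q | q)
    · induction q using Quotient.inductionOn with
      | h x => rfl
    · induction q using Quotient.inductionOn with
      | h x => rfl

theorem sumS_sup (S1 T1 : Setoid D1) (S2 T2 : Setoid D2) :
    sumS S1 S2 ⊔ sumS T1 T2 = sumS (S1 ⊔ T1) (S2 ⊔ T2) := by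
  apply le_antisymm
  · apply sup_le
    · rintro (a | a) (b | b) h
      · exact (le_sup_left : S1 ≤ S1 ⊔ T1) h
      · exact h
      · exact h
      · exact (le_sup_left : S2 ≤ S2 ⊔ T2) h
    · rintro (a | a) (b | b) h
      · exact (le_sup_right : T1 ≤ S1 ⊔ T1) h
      · exact h
      · exact h
      · exact (le_sup_right : T2 ≤ S2 ⊔ T2) h
  · rintro (a | a) (b | b) h
    · have h1 : S1 ⊔ T1 ≤ Setoid.comap Sum.inl (sumS S1 S2 ⊔ sumS T1 T2) := by
        apply sup_le
        · intro x y hxy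
          exact (le_sup_left : sumS S1 S2 ≤ _) (show sumS S1 S2 (Sum.inl x) (Sum.inl y) from hxy)
        · intro x y hxy
          exact (le_sup_right : sumS T1 T2 ≤ _) (show sumS T1 T2 (Sum.inl x) (Sum.inl y) from hxy)
      exact h1 h
    · exact (sumS_lr h).elim
    · exact (sumS_rl h).elim
    · have h1 : S2 ⊔ T2 ≤ Setoid.comap Sum.inr (sumS S1 S2 ⊔ sumS T1 T2) := by
        apply sup_le
        · intro x y hxy
          exact (le_sup_left : sumS S1 S2 ≤ _) (show sumS S1 S2 (Sum.inr x) (Sum.inr y) from hxy)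
        · intro x y hxy
          exact (le_sup_right : sumS T1 T2 ≤ _) (show sumS T1 T2 (Sum.inr x) (Sum.inr y) from hxy)
      exact h1 h

theorem sumCongr_pow (α : Perm D1) (β : Perm D2) (n : ℕ) :
    (Perm.sumCongr α β) ^ n = Perm.sumCongr (α ^ n) (β ^ n) := by
  induction n with
  | zero => simp
  | succ n ih => rw [pow_succ, pow_succ, pow_succ, ih, Perm.sumCongr_mul]

theorem setoid_sum [Finite D1] [Finite D2] (α : Perm D1) (β : Perm D2) :
    Perm.SameCycle.setoid (Perm.sumCongr α β) =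
      sumS (Perm.SameCycle.setoid α) (Perm.SameCycle.setoid β) := by
  apply le_antisymm
  · intro x y h
    obtain ⟨n, hn⟩ := Perm.SameCycle.exists_nat_pow_eq h
    rw [sumCongr_pow] at hn
    rw [← hn]
    rcases x with a | a
    · exact ⟨n, by simp⟩
    · exact ⟨n, by simp⟩
  · rintro (a | a) (b | b) h
    · obtain ⟨n, hn⟩ := Perm.SameCycle.exists_nat_pow_eq h
      refine ⟨n, ?_⟩
      rw [zpow_natCast, sumCongr_pow, ← hn]
      rfl
    · exact (sumS_lr h).elim
    · exact (sumS_rl h).elim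
    · obtain ⟨n, hn⟩ := Perm.SameCycle.exists_nat_pow_eq h
      refine ⟨n, ?_⟩
      rw [zpow_natCast, sumCongr_pow, ← hn]
      rfl

theorem nc_sum [Finite D1] [Finite D2] (α : Perm D1) (β : Perm D2) :
    nc (Perm.sumCongr α β) = nc α + nc β := by
  unfold nc
  rw [setoid_sum, card_sumS]

theorem conn_sum [Finite D1] [Finite D2] (α α' : Perm D1) (β β' : Perm D2) :
    conn (Perm.sumCongr α β) (Perm.sumCongr α' β') = sumS (conn α α') (conn β β') := by
  unfold conn
  rw [setoid_sum, setoid_sum, sumS_sup]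

theorem planar_sum [Finite D1] [Finite D2] {α α' : Perm D1} {β β' : Perm D2}
    (h1 : Planar α α') (h2 : Planar β β') :
    Planar (Perm.sumCongr α β) (Perm.sumCongr α' β') := by
  unfold Planar comps at *
  rw [conn_sum, card_sumS, Perm.sumCongr_mul, nc_sum, nc_sum, nc_sum, Nat.card_sum]
  omega

end SumSetoid

section Pics

variable {P : Type} [Group P] {D : Type} {R : List (Rel P)}

theorem kind_pow {σ θ : Perm D} {h : D → P} {ty : D → Fin 3} {kind : D → Option (ℕ × Bool × ℕ)}
    (hp : IsPic R σ θ h ty kind) {d : D} (hd : kind d ≠ none) (i : ℕ) :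
    kind (((σ * θ) ^ i) d) ≠ none := by
  induction i with
  | zero => simpa using hd
  | succ i ih =>
    obtain ⟨⟨j, s, k⟩, hj⟩ := Option.ne_none_iff_exists'.1 ih
    obtain ⟨r, -, -, h3, -⟩ := hp.rel _ j s k hj
    have h4 : ((σ * θ) ^ (i + 1)) d = σ (θ (((σ * θ) ^ i) d)) := by rw [pow_succ']; rfl
    rw [h4, h3]
    exact Option.some_ne_none _

theorem lab_scale {σ : Perm D} {h : D → P} (c : P) (d : D) :
    lab σ (fun y => c * h y) d = lab σ h d := by
  unfold lab
  group

/-- the disjoint union of two pictures -/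
theorem pic_sum {D1 D2 : Type} [Finite D1] [Finite D2] {σ1 θ1 : Perm D1} {h1 : D1 → P}
    {ty1 : D1 → Fin 3} {kind1 : D1 → Option (ℕ × Bool × ℕ)} {σ2 θ2 : Perm D2} {h2 : D2 → P}
    {ty2 : D2 → Fin 3} {kind2 : D2 → Option (ℕ × Bool × ℕ)}
    (p1 : IsPic R σ1 θ1 h1 ty1 kind1) (p2 : IsPic R σ2 θ2 h2 ty2 kind2) :
    IsPic R (Perm.sumCongr σ1 σ2) (Perm.sumCongr θ1 θ2) (Sum.elim h1 h2) (Sum.elim ty1 ty2)
      (Sum.elim kind1 kind2) where
  planar := planar_sum p1.planar p2.planar
  hθ := by
    rintro (d | d)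
    · exact p1.hθ d
    · exact p2.hθ d
  tyσ := by
    rintro (d | d)
    · exact p1.tyσ d
    · exact p2.tyσ d
  rel := by
    rintro (d | d) j s k hk
    · obtain ⟨r, e1, e2, e3, e4⟩ := p1.rel d j s k hk
      refine ⟨r, e1, e2, e3, ?_⟩
      rw [Perm.sumCongr_mul, sumCongr_pow]
      exact congrArg Sum.inl e4
    · obtain ⟨r, e1, e2, e3, e4⟩ := p2.rel d j s k hk
      refine ⟨r, e1, e2, e3, ?_⟩
      rw [Perm.sumCongr_mul, sumCongr_pow]
      exact congrArg Sum.inr e4

theorem pic_scale {σ θ : Perm D} {h : D → P} {ty : D → Fin 3} {kind : D → Option (ℕ × Bool × ℕ)}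
    (p : IsPic R σ θ h ty kind) (c : P) : IsPic R σ θ (fun y => c * h y) ty kind where
  planar := p.planar
  hθ := fun d => by show c * h (θ d) = c * h d; rw [p.hθ d]
  tyσ := p.tyσ
  rel := by
    intro d j s k hk
    obtain ⟨r, e1, e2, e3, e4⟩ := p.rel d j s k hk
    refine ⟨r, e1, ?_, e3, e4⟩
    rw [lab_scale]
    exact e2

/-- the face permutation after gluing at the primary vertices of two hole corners -/
theorem glue_mul [DecidableEq D] (σ θ : Perm D) (x y : D) :
    σ * (swap (σ⁻¹ x) (σ⁻¹ y) * θ) = swap x y * (σ * θ) := by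
  have h1 : σ * swap (σ⁻¹ x) (σ⁻¹ y) = swap x y * σ := by
    have := Equiv.mul_swap_eq_swap_mul σ (σ⁻¹ x) (σ⁻¹ y)
    simpa using this
  rw [← mul_assoc, h1, mul_assoc]

theorem glue_pow [DecidableEq D] {σ θ : Perm D} {h : D → P} {ty : D → Fin 3}
    {kind : D → Option (ℕ × Bool × ℕ)} (p : IsPic R σ θ h ty kind) {x y : D}
    (hx : kind x = none) (hy : kind y = none) {d : D} (hd : kind d ≠ none) (i : ℕ) :
    ((swap x y * (σ * θ)) ^ i) d = ((σ * θ) ^ i) d := by
  induction i with
  | zero => simp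
  | succ i ih =>
    have h1 : ((swap x y * (σ * θ)) ^ (i + 1)) d =
        swap x y ((σ * θ) (((swap x y * (σ * θ)) ^ i) d)) := by rw [pow_succ']; rfl
    have h2 : ((σ * θ) ^ (i + 1)) d = (σ * θ) (((σ * θ) ^ i) d) := by rw [pow_succ']; rfl
    rw [h1, ih, ← h2]
    have h3 := kind_pow p hd (i + 1)
    apply swap_apply_of_ne_of_ne
    · intro h4; rw [h4] at h3; exact h3 hx
    · intro h4; rw [h4] at h3; exact h3 hy

/-- gluing at the primary vertices of two hole corners in different components -/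
theorem pic_glue [Fintype D] [DecidableEq D] (hA3 : T_A3) {σ θ : Perm D} {h : D → P}
    {ty : D → Fin 3} {kind : D → Option (ℕ × Bool × ℕ)} (p : IsPic R σ θ h ty kind) {x y : D}
    (hx : kind x = none) (hy : kind y = none) (hxy : ¬ conn σ θ (σ⁻¹ x) (σ⁻¹ y))
    (hh : h (σ⁻¹ x) = h (σ⁻¹ y)) :
    IsPic R σ (swap (σ⁻¹ x) (σ⁻¹ y) * θ) h ty kind where
  planar := by
    have hne : σ⁻¹ x ≠ σ⁻¹ y := by
      intro h1
      apply hxy
      rw [h1]
    exact (hA3 D σ θ _ _ p.planar hne).2.2 hxy
  hθ := by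
    intro d
    have h1 : ∀ z, h (swap (σ⁻¹ x) (σ⁻¹ y) z) = h z := by
      intro z
      by_cases h2 : z = σ⁻¹ x
      · rw [h2, swap_apply_left, hh]
      · by_cases h3 : z = σ⁻¹ y
        · rw [h3, swap_apply_right, hh]
        · rw [swap_apply_of_ne_of_ne h2 h3]
    rw [Perm.mul_apply, h1, p.hθ]
  tyσ := p.tyσ
  rel := by
    intro d j s k hk
    obtain ⟨r, e1, e2, e3, e4⟩ := p.rel d j s k hk
    have hd : kind d ≠ none := by rw [hk]; exact Option.some_ne_none _
    refine ⟨r, e1, e2, ?_, ?_⟩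
    · have h1 := glue_pow p hx hy hd 1
      rw [pow_one, pow_one] at h1
      have h2 : σ ((swap (σ⁻¹ x) (σ⁻¹ y) * θ) d) = (σ * (swap (σ⁻¹ x) (σ⁻¹ y) * θ)) d := rfl
      rw [h2, glue_mul, h1]
      exact e3
    · rw [glue_mul, glue_pow p hx hy hd]
      exact e4

end Pics

theorem B5 (hA3 : T_A3) : T_B5 := by
  classical
  intro P _ R X Y hX hY
  obtain ⟨D1, _, _, σ1, θ1, h1, ty1, kind1, x0, p1, H1⟩ := hX
  obtain ⟨D2, _, _, σ2, θ2, h2', ty2, kind2, y0, p2', H2'⟩ := hY
  -- rescale the second picture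
  set c : P := h1 (σ1⁻¹ x0) * (h2' (σ2⁻¹ y0))⁻¹ with hc
  set h2 : D2 → P := fun y => c * h2' y with hh2
  have p2 : IsPic R σ2 θ2 h2 ty2 kind2 := pic_scale p2' c
  have H2 : HoleAt σ2 θ2 h2 ty2 kind2 y0 Y :=
    { ne := H2'.ne
      per := H2'.per
      mper := H2'.mper
      rd := by
        intro i hi
        rw [H2'.rd i hi, lab_scale]
      hole := H2'.hole
      only := H2'.only }
  have hcc : h1 (σ1⁻¹ x0) = h2 (σ2⁻¹ y0) := by
    rw [hh2, hc]
    group
  -- the disjoint union
  set σ : Perm (D1 ⊕ D2) := Perm.sumCongr σ1 σ2 with hσ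
  set θ : Perm (D1 ⊕ D2) := Perm.sumCongr θ1 θ2 with hθ
  set h : D1 ⊕ D2 → P := Sum.elim h1 h2 with hh
  set ty : D1 ⊕ D2 → Fin 3 := Sum.elim ty1 ty2 with hty
  set kind : D1 ⊕ D2 → Option (ℕ × Bool × ℕ) := Sum.elim kind1 kind2 with hkind
  have p : IsPic R σ θ h ty kind := pic_sum p1 p2
  have e1 : σ⁻¹ (Sum.inl x0) = Sum.inl (σ1⁻¹ x0) := by
    rw [hσ, Perm.sumCongr_inv]; rfl
  have e2 : σ⁻¹ (Sum.inr y0) = Sum.inr (σ2⁻¹ y0) := by
    rw [hσ, Perm.sumCongr_inv]; rfl
  have hconn : conn σ θ = sumS (conn σ1 θ1) (conn σ2 θ2) := conn_sum _ _ _ _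
  have hnot : ¬ conn σ θ (σ⁻¹ (Sum.inl x0)) (σ⁻¹ (Sum.inr y0)) := by
    rw [hconn, e1, e2]
    exact sumS_lr
  have hx : kind (Sum.inl x0) = none := H1.hole
  have hy : kind (Sum.inr y0) = none := H2.hole
  have hhh : h (σ⁻¹ (Sum.inl x0)) = h (σ⁻¹ (Sum.inr y0)) := by
    rw [e1, e2]
    exact hcc
  have q := pic_glue hA3 p hx hy hnot hhh
  set u : D1 ⊕ D2 := σ⁻¹ (Sum.inl x0) with hu
  set u' : D1 ⊕ D2 := σ⁻¹ (Sum.inr y0) with hu'
  set θ' : Perm (D1 ⊕ D2) := swap u u' * θ with hθ'
  have hφ' : σ * θ' = swap (Sum.inl x0) (Sum.inr y0) * (σ * θ) := glue_mul σ θ _ _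
  have hφl : ∀ a, (σ * θ) (Sum.inl a) = Sum.inl ((σ1 * θ1) a) := fun a => rfl
  have hφr : ∀ a, (σ * θ) (Sum.inr a) = Sum.inr ((σ2 * θ2) a) := fun a => rfl
  -- positions on the new hole
  have hn1 : 0 < X.length := List.length_pos_of_ne_nil H1.ne
  have hn2 : 0 < Y.length := List.length_pos_of_ne_nil H2.ne
  have pos1 : ∀ i, i < X.length → ((σ * θ') ^ i) (Sum.inl x0) = Sum.inl (((σ1 * θ1) ^ i) x0) := by
    intro i
    induction i with
    | zero => intro _; rfl
    | succ i ih =>
      intro hi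
      have g1 : ((σ * θ') ^ (i + 1)) (Sum.inl x0) = (σ * θ') (((σ * θ') ^ i) (Sum.inl x0)) := by
        rw [pow_succ']; rfl
      have g2 : ((σ1 * θ1) ^ (i + 1)) x0 = (σ1 * θ1) (((σ1 * θ1) ^ i) x0) := by
        rw [pow_succ']; rfl
      rw [g1, ih (by omega), hφ', Perm.mul_apply, hφl, ← g2]
      apply swap_apply_of_ne_of_ne
      · intro h5
        exact H1.mper (i + 1) (by omega) hi (Sum.inl_injective h5)
      · exact Sum.inl_ne_inr
  have posm : ((σ * θ') ^ X.length) (Sum.inl x0) = Sum.inr y0 := by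
    obtain ⟨n, hn⟩ : ∃ n, X.length = n + 1 := ⟨X.length - 1, by omega⟩
    have g1 : ((σ * θ') ^ (n + 1)) (Sum.inl x0) = (σ * θ') (((σ * θ') ^ n) (Sum.inl x0)) := by
      rw [pow_succ']; rfl
    have g2 : ((σ1 * θ1) ^ (n + 1)) x0 = (σ1 * θ1) (((σ1 * θ1) ^ n) x0) := by
      rw [pow_succ']; rfl
    have g3 := H1.per
    rw [hn] at g3
    rw [hn, g1, pos1 n (by omega), hφ', Perm.mul_apply, hφl, ← g2, g3, swap_apply_left]
  have pos2 : ∀ i, i < Y.length →
      ((σ * θ') ^ (X.length + i)) (Sum.inl x0) = Sum.inr (((σ2 * θ2) ^ i) y0) := by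
    intro i
    induction i with
    | zero => intro _; exact posm
    | succ i ih =>
      intro hi
      have g1 : ((σ * θ') ^ (X.length + (i + 1))) (Sum.inl x0) =
          (σ * θ') (((σ * θ') ^ (X.length + i)) (Sum.inl x0)) := by
        rw [← add_assoc, pow_succ']; rfl
      have g2 : ((σ2 * θ2) ^ (i + 1)) y0 = (σ2 * θ2) (((σ2 * θ2) ^ i) y0) := by
        rw [pow_succ']; rfl
      rw [g1, ih (by omega), hφ', Perm.mul_apply, hφr, ← g2]
      apply swap_apply_of_ne_of_ne
      · exact Sum.inr_ne_inl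
      · intro h5
        exact H2.mper (i + 1) (by omega) hi (Sum.inr_injective h5)
  have pose : ((σ * θ') ^ (X.length + Y.length)) (Sum.inl x0) = Sum.inl x0 := by
    obtain ⟨n, hn⟩ : ∃ n, Y.length = n + 1 := ⟨Y.length - 1, by omega⟩
    have g1 : ((σ * θ') ^ (X.length + (n + 1))) (Sum.inl x0) =
        (σ * θ') (((σ * θ') ^ (X.length + n)) (Sum.inl x0)) := by
      rw [← add_assoc, pow_succ']; rfl
    have g2 : ((σ2 * θ2) ^ (n + 1)) y0 = (σ2 * θ2) (((σ2 * θ2) ^ n) y0) := by
      rw [pow_succ']; rfl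
    have g3 := H2.per
    rw [hn] at g3
    rw [hn, g1, pos2 n (by omega), hφ', Perm.mul_apply, hφr, ← g2, g3, swap_apply_right]
  -- labels
  have labl : ∀ a, lab σ h (Sum.inl a) = lab σ1 h1 a := by
    intro a
    unfold lab
    rw [hσ, Perm.sumCongr_inv]
    rfl
  have labr : ∀ a, lab σ h (Sum.inr a) = lab σ2 h2 a := by
    intro a
    unfold lab
    rw [hσ, Perm.sumCongr_inv]
    rfl
  refine ⟨D1 ⊕ D2, inferInstance, inferInstance, σ, θ', h, ty, kind, Sum.inl x0, q, ?_⟩
  refine ⟨?_, ?_, ?_, ?_, hx, ?_⟩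
  · intro h5
    exact H1.ne (List.append_eq_nil_iff.1 h5).1
  · rw [List.length_append]
    exact pose
  · intro i hi0 hi
    rw [List.length_append] at hi
    by_cases h5 : i < X.length
    · rw [pos1 i h5]
      intro h6
      exact H1.mper i hi0 h5 (Sum.inl_injective h6)
    · obtain ⟨k, rfl⟩ := Nat.exists_eq_add_of_le (not_lt.1 h5)
      rw [pos2 k (by omega)]
      exact Sum.inr_ne_inl
  · intro i hi
    rw [List.length_append] at hi
    by_cases h5 : i < X.length
    · rw [pos1 i h5, List.getElem?_append_left h5, H1.rd i h5, labl]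
      rfl
    · obtain ⟨k, rfl⟩ := Nat.exists_eq_add_of_le (not_lt.1 h5)
      rw [pos2 k (by omega), List.getElem?_append_right (by omega), Nat.add_sub_cancel_left,
        H2.rd k (by omega), labr]
      rfl
  · -- the class function
    intro d hd hdk
    set S := conn σ θ with hS
    let f : D1 ⊕ D2 → Quotient S := fun z => if S z u' then Quotient.mk S u else Quotient.mk S z
    have fS : ∀ z w, S z w → f z = f w := by
      intro z w hzw
      by_cases h5 : S z u'
      · have h6 : S w u' := S.trans (S.symm hzw) h5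
        simp only [f, if_pos h5, if_pos h6]
      · have h6 : ¬ S w u' := fun h7 => h5 (S.trans hzw h7)
        simp only [f, if_neg h5, if_neg h6]
        exact Quotient.sound hzw
    have fu' : f u' = Quotient.mk S u := by simp only [f, if_pos (S.refl u')]
    have fu : f u = Quotient.mk S u := by
      simp only [f, if_neg hnot]
    have fsw : ∀ z, f (swap u u' z) = f z := by
      intro z
      by_cases h5 : z = u
      · rw [h5, swap_apply_left, fu', fu]
      · by_cases h6 : z = u'
        · rw [h6, swap_apply_right, fu', fu]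
        · rw [swap_apply_of_ne_of_ne h5 h6]
    have hle : conn σ θ' ≤ Setoid.ker f := by
      apply sup_le
      · intro z w hzw
        exact fS z w ((le_sup_left : Perm.SameCycle.setoid σ ≤ conn σ θ) hzw)
      · intro z w hzw
        obtain ⟨n, hn⟩ := Perm.SameCycle.exists_nat_pow_eq hzw
        have key : ∀ n : ℕ, f ((θ' ^ n) z) = f z := by
          intro n
          induction n with
          | zero => rfl
          | succ n ih =>
            have g1 : (θ' ^ (n + 1)) z = swap u u' (θ ((θ' ^ n) z)) := by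
              rw [pow_succ']; rfl
            rw [g1, fsw]
            have g2 : S (θ ((θ' ^ n) z)) ((θ' ^ n) z) := by
              apply (le_sup_right : Perm.SameCycle.setoid θ ≤ conn σ θ)
              exact Perm.sameCycle_apply_left.2 (Perm.SameCycle.refl _ _)
            rw [fS _ _ g2, ih]
        show f z = f w
        rw [← hn, key]
    have h5 : f (Sum.inl x0) = f d := hle hd
    have h6 : S u (Sum.inl x0) := by
      apply (le_sup_left : Perm.SameCycle.setoid σ ≤ conn σ θ)
      rw [hu]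
      exact ⟨1, by simp⟩
    have h6' : S u' (Sum.inr y0) := by
      apply (le_sup_left : Perm.SameCycle.setoid σ ≤ conn σ θ)
      rw [hu']
      exact ⟨1, by simp⟩
    rw [← fS _ _ h6, fu] at h5
    by_cases h7 : S d u'
    · -- in the second picture
      have h8 : S (Sum.inr y0) d := S.trans (S.symm h6') (S.symm h7)
      rw [hconn] at h8
      rcases d with a | b
      · exact (sumS_rl h8).elim
      · have h9 : (σ2 * θ2).SameCycle y0 b := H2.only b h8 hdk
        obtain ⟨i, hi⟩ := h9.exists_nat_pow_eq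
        have h10 : ((σ2 * θ2) ^ (i % Y.length)) y0 = b := by
          rw [← hi]
          have g1 : i = i % Y.length + Y.length * (i / Y.length) := (Nat.mod_add_div _ _).symm
          have g2 : ((σ2 * θ2) ^ (Y.length * (i / Y.length))) y0 = y0 := by
            rw [pow_mul]
            exact Function.IsFixedPt.perm_pow H2.per _
          conv_rhs => rw [g1, pow_add, Perm.mul_apply, g2]
        refine ⟨((X.length + i % Y.length : ℕ) : ℤ), ?_⟩
        rw [zpow_natCast, pos2 _ (Nat.mod_lt _ hn2), h10]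
    · have h8 : S u d := by
        simp only [f, if_neg h7] at h5
        exact Quotient.exact h5
      have h8' : S (Sum.inl x0) d := S.trans (S.symm h6) h8
      rw [hconn] at h8'
      rcases d with a | b
      · have h9 : (σ1 * θ1).SameCycle x0 a := H1.only a h8' hdk
        obtain ⟨i, hi⟩ := h9.exists_nat_pow_eq
        have h10 : ((σ1 * θ1) ^ (i % X.length)) x0 = a := by
          rw [← hi]
          have g1 : i = i % X.length + X.length * (i / X.length) := (Nat.mod_add_div _ _).symm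
          have g2 : ((σ1 * θ1) ^ (X.length * (i / X.length))) x0 = x0 := by
            rw [pow_mul]
            exact Function.IsFixedPt.perm_pow H1.per _
          conv_rhs => rw [g1, pow_add, Perm.mul_apply, g2]
        refine ⟨((i % X.length : ℕ) : ℤ), ?_⟩
        rw [zpow_natCast, pos1 _ (Nat.mod_lt _ hn1), h10]
      · exact (sumS_lr h8').elim

end TF48
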