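import Mathlib
import Pool.Agent.H7.TF.Targets

/-!
# MP_7a929c_al, module B6 : the basic pictures (helper48)
-/

set_option autoImplicit false
set_option linter.unusedSectionVars false

namespace TF48B6

open Equiv Pool.Agent.H7.TF

/-! ### counting cycles -/

theorem card_quot {D X : Type} (S : Setoid D) (f : D → X) (hf : Function.Surjective f)
    (h : ∀ z w, S z w ↔ f z = f w) : Nat.card (Quotient S) = Nat.card X := by
  refine Nat.card_eq_of_bijective (Quotient.lift f (fun a b hab => (h a b).1 hab)) ⟨?_, ?_⟩
  · intro a b hab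
    induction a using Quotient.inductionOn with
    | h x =>
      induction b using Quotient.inductionOn with
      | h y => exact Quotient.sound ((h x y).2 hab)
  · intro x
    obtain ⟨z, hz⟩ := hf x
    exact ⟨Quotient.mk _ z, hz⟩

theorem sc_f {D X : Type} [Finite D] {α : Perm D} {f : D → X} (h1 : ∀ z, f (α z) = f z) {z w : D}
    (h : α.SameCycle z w) : f z = f w := by
  obtain ⟨n, hn⟩ := h.exists_nat_pow_eq
  rw [← hn]
  clear hn
  induction n with
  | zero => rfl
  | succ n ih =>
    have g1 : (α ^ (n + 1)) z = α ((α ^ n) z) := by rw [pow_succ']; rfl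
    rw [g1, h1, ih]

theorem nc_eq {D X : Type} [Finite D] (α : Perm D) (f : D → X) (hf : Function.Surjective f)
    (h1 : ∀ z, f (α z) = f z) (h2 : ∀ z w, f z = f w → α.SameCycle z w) : nc α = Nat.card X := by
  unfold nc
  apply card_quot _ f hf
  intro z w
  exact ⟨fun h => sc_f h1 h, h2 z w⟩

/-! ### the dipole -/

section Dipole

variable (L : ℕ) [NeZero L]

/-- darts: `(k, true) = r_k`, `(k, false) = q_k` -/
abbrev DD : Type := ZMod L × Bool

/-- rotation at the secondary vertices -/
def sg : Perm (DD L) where
  toFun z := (z.1, !z.2)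
  invFun z := (z.1, !z.2)
  left_inv := by rintro ⟨k, b⟩; simp
  right_inv := by rintro ⟨k, b⟩; simp

/-- rotation at the primary vertices -/
def th : Perm (DD L) where
  toFun z := if z.2 then (z.1 + 1, false) else (z.1 - 1, true)
  invFun z := if z.2 then (z.1 + 1, false) else (z.1 - 1, true)
  left_inv := by rintro ⟨k, b⟩; cases b <;> simp
  right_inv := by rintro ⟨k, b⟩; cases b <;> simp

theorem ph_t (k : ZMod L) : (sg L * th L) (k, true) = (k + 1, true) := rfl
theorem ph_f (k : ZMod L) : (sg L * th L) (k, false) = (k - 1, false) := rfl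

theorem ph_pow_t (k : ZMod L) (i : ℕ) : ((sg L * th L) ^ i) (k, true) = (k + i, true) := by
  induction i with
  | zero => simp
  | succ i ih =>
    have g1 : ((sg L * th L) ^ (i + 1)) (k, true) = (sg L * th L) (((sg L * th L) ^ i) (k, true)) := by
      rw [pow_succ']; rfl
    rw [g1, ih, ph_t]
    push_cast
    rw [add_assoc]

theorem ph_pow_f (k : ZMod L) (i : ℕ) : ((sg L * th L) ^ i) (k, false) = (k - i, false) := by
  induction i with
  | zero => simp
  | succ i ih =>
    have g1 : ((sg L * th L) ^ (i + 1)) (k, false) = (sg L * th L) (((sg L * th L) ^ i) (k, false)) := by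
      rw [pow_succ']; rfl
    rw [g1, ih, ph_f]
    push_cast
    rw [sub_sub]

theorem sc_t (k k' : ZMod L) : (sg L * th L).SameCycle (k, true) (k', true) := by
  refine ⟨((k' - k).val : ℕ), ?_⟩
  rw [zpow_natCast, ph_pow_t, ZMod.natCast_zmod_val]
  simp

theorem sc_ff (k k' : ZMod L) : (sg L * th L).SameCycle (k, false) (k', false) := by
  refine ⟨((k - k').val : ℕ), ?_⟩
  rw [zpow_natCast, ph_pow_f, ZMod.natCast_zmod_val]
  simp

theorem nc_sg : nc (sg L) = L := by
  rw [nc_eq (sg L) (fun z => z.1) (fun k => ⟨(k, true), rfl⟩) (fun z => rfl)]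
  · exact Nat.card_zmod L
  · rintro ⟨k, b⟩ ⟨k', b'⟩ h
    simp only at h
    subst h
    cases b <;> cases b'
    · exact Perm.SameCycle.refl _ _
    · exact ⟨1, rfl⟩
    · exact ⟨1, rfl⟩
    · exact Perm.SameCycle.refl _ _

theorem nc_th : nc (th L) = L := by
  rw [nc_eq (th L) (fun z => if z.2 then z.1 else z.1 - 1) (fun k => ⟨(k, true), rfl⟩)]
  · exact Nat.card_zmod L
  · rintro ⟨k, b⟩
    cases b <;> simp [th]
  · rintro ⟨k, b⟩ ⟨k', b'⟩ h
    cases b <;> cases b'
    · simp only [Bool.false_eq_true, if_false, sub_left_inj] at h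
      rw [h]
    · simp only [Bool.false_eq_true, if_false, if_true] at h
      exact ⟨1, by rw [zpow_one]; show (k - 1, true) = (k', true); rw [h]⟩
    · simp only [Bool.false_eq_true, if_false, if_true] at h
      exact ⟨1, by rw [zpow_one]; show (k + 1, false) = (k', false); rw [h]; simp⟩
    · simp only [if_true] at h
      rw [h]

theorem nc_ph : nc (sg L * th L) = 2 := by
  rw [nc_eq (sg L * th L) (fun z => z.2) (fun b => ⟨(0, b), rfl⟩)]
  · simp
  · rintro ⟨k, b⟩
    cases b <;> rfl
  · rintro ⟨k, b⟩ ⟨k', b'⟩ h
    simp only at h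
    subst h
    cases b
    · exact sc_ff L k k'
    · exact sc_t L k k'

theorem comps_one : comps (sg L) (th L) = 1 := by
  unfold comps
  rw [Nat.card_eq_one_iff_unique]
  refine ⟨⟨fun a b => ?_⟩, ⟨Quotient.mk _ (0, true)⟩⟩
  have key : ∀ z : DD L, conn (sg L) (th L) (0, true) z := by
    have hs : Perm.SameCycle.setoid (sg L) ≤ conn (sg L) (th L) := le_sup_left
    have ht : Perm.SameCycle.setoid (th L) ≤ conn (sg L) (th L) := le_sup_right
    have h1 : ∀ k : ℕ, conn (sg L) (th L) (0, true) ((k : ZMod L), true) := by
      intro k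
      induction k with
      | zero => rw [Nat.cast_zero]
      | succ k ih =>
        refine (conn (sg L) (th L)).trans ih ?_
        refine (conn (sg L) (th L)).trans (ht ⟨1, rfl⟩ : conn (sg L) (th L) ((k : ZMod L), true)
          (((k : ZMod L) + 1), false)) ?_
        have := (hs ⟨1, rfl⟩ : conn (sg L) (th L) (((k : ZMod L) + 1), false)
          (((k : ZMod L) + 1), true))
        push_cast
        exact this
    rintro ⟨k, b⟩
    have h2 := h1 k.val
    rw [ZMod.natCast_zmod_val] at h2
    cases b
    · exact (conn (sg L) (th L)).trans h2 (hs ⟨1, rfl⟩)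
    · exact h2
  obtain ⟨x, rfl⟩ := Quotient.exists_rep a
  obtain ⟨y, rfl⟩ := Quotient.exists_rep b
  exact Quotient.sound ((conn (sg L) (th L)).trans ((conn (sg L) (th L)).symm (key x)) (key y))

theorem planar_dd : Planar (sg L) (th L) := by
  unfold Planar
  rw [nc_sg, nc_th, nc_ph, comps_one, Nat.card_prod, Nat.card_zmod,
    Nat.card_eq_fintype_card (α := Bool), Fintype.card_bool]
  omega

theorem val_add_one (k : ZMod L) : (k + 1).val = (k.val + 1) % L := by
  rw [ZMod.val_add]
  conv_rhs => rw [Nat.add_mod, Nat.mod_eq_of_lt (ZMod.val_lt k)]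
  rw [ZMod.val_one_eq_one_mod]

theorem val_sub_one (k : ZMod L) : (k - 1).val = (k.val + L - 1) % L := by
  have h1 := val_add_one L (k - 1)
  rw [sub_add_cancel] at h1
  have h2 : (k - 1).val < L := ZMod.val_lt _
  set x := (k - 1).val
  rw [h1]
  have hL : 0 < L := Nat.pos_of_ne_zero (NeZero.ne L)
  by_cases h3 : x + 1 = L
  · rw [h3, Nat.mod_self, zero_add, ← h3, Nat.add_sub_cancel, h3]
    exact (Nat.mod_eq_of_lt h2).symm
  · rw [Nat.mod_eq_of_lt (by omega : x + 1 < L)]
    have : x + 1 + L - 1 = x + L := by omega
    rw [this, Nat.add_mod_right, Nat.mod_eq_of_lt h2]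

end Dipole

section Words

variable {P : Type} [Group P]

/-- product of the first `i` letters -/
def pr (w : List (Fin 3 × P)) (i : ℕ) : P := ((w.take i).map Prod.snd).prod

theorem pr_zero (w : List (Fin 3 × P)) : pr w 0 = 1 := by simp [pr]

theorem pr_succ (w : List (Fin 3 × P)) (i : ℕ) (hi : i < w.length) :
    pr w (i + 1) = pr w i * (w[i]).2 := by
  unfold pr
  rw [List.take_succ_eq_append_getElem hi, List.map_append, List.prod_append, List.map_singleton,
    List.prod_singleton]

theorem pr_len (w : List (Fin 3 × P)) : pr w w.length = fold w := by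
  simp [pr, fold]

variable (w : List (Fin 3 × P)) [NeZero w.length]

/-- potential -/
def hh (z : DD w.length) : P := if z.2 then pr w (z.1.val + 1) else pr w z.1.val

/-- types -/
def tt (z : DD w.length) : Fin 3 := (w[z.1.val]'(ZMod.val_lt z.1)).1

theorem hh_th (hf : fold w = 1) (z : DD w.length) : hh w (th w.length z) = hh w z := by
  have key : ∀ k : ZMod w.length, pr w (k + 1).val = pr w (k.val + 1) := by
    intro k
    rw [val_add_one]
    have h2 : k.val < w.length := ZMod.val_lt _
    by_cases h3 : k.val + 1 = w.length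
    · rw [h3, Nat.mod_self, pr_zero, pr_len, hf]
    · rw [Nat.mod_eq_of_lt (by omega)]
  obtain ⟨k, b⟩ := z
  cases b
  · show pr w ((k - 1).val + 1) = pr w k.val
    rw [← key, sub_add_cancel]
  · show pr w (k + 1).val = pr w (k.val + 1)
    exact key k

theorem lab_t (k : ZMod w.length) :
    lab (sg w.length) (hh w) (k, true) = (w[k.val]'(ZMod.val_lt k)).2 := by
  show (pr w k.val)⁻¹ * pr w (k.val + 1) = _
  rw [pr_succ w _ (ZMod.val_lt k), inv_mul_cancel_left]

theorem lab_f (k : ZMod w.length) :
    lab (sg w.length) (hh w) (k, false) = ((w[k.val]'(ZMod.val_lt k)).2)⁻¹ := by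
  show (pr w (k.val + 1))⁻¹ * pr w k.val = _
  rw [pr_succ w _ (ZMod.val_lt k), mul_inv_rev, inv_mul_cancel_right]

end Words

theorem B6 : T_B6 := by
  intro P _ R hF
  refine ⟨?_, ?_⟩
  · intro r hr
    obtain ⟨j, hj, hjr⟩ := List.getElem_of_mem hr
    have hRj : R[j]? = some r := by rw [List.getElem?_eq_getElem hj, hjr]
    have hfold : fold r.word = 1 := hF r hr
    have hne : r.word.length ≠ 0 := by
      simp [Rel.word]
    have : NeZero r.word.length := ⟨hne⟩
    set w := r.word with hw
    have hlen : 0 < w.length := Nat.pos_of_ne_zero hne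
    refine ⟨?_, ?_⟩
    · refine ⟨DD w.length, inferInstance, inferInstance, sg w.length, th w.length, hh w, tt w,
        (fun z => if z.2 then none else some (j, false, z.1.val)), (0, true), ?_, ?_⟩
      · refine ⟨planar_dd _, hh_th w hfold, fun z => rfl, ?_⟩
        rintro ⟨k, b⟩ j' s k' hk
        cases b
        · simp only [Bool.false_eq_true, if_false, Option.some.injEq, Prod.mk.injEq] at hk
          obtain ⟨rfl, rfl, rfl⟩ := hk
          refine ⟨r, hRj, ?_, ?_, ?_⟩
          · rw [← hw, List.getElem?_eq_getElem (ZMod.val_lt k), lab_f]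
            simp [tt]
          · show some (j, false, (k - 1).val) = _
            rw [val_sub_one]
            rfl
          · rw [← hw, ph_pow_f]
            simp
        · simp at hk
      · refine ⟨?_, ?_, ?_, ?_, rfl, ?_⟩
        · intro h0
          rw [h0] at hlen
          simp at hlen
        · rw [ph_pow_t]
          simp
        · intro i hi0 hi h1
          rw [ph_pow_t, zero_add, Prod.mk.injEq] at h1
          have h2 := (ZMod.natCast_eq_zero_iff i w.length).1 h1.1
          exact absurd (Nat.le_of_dvd hi0 h2) (by omega)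
        · intro i hi
          rw [ph_pow_t, zero_add, lab_t]
          have h1 : ((i : ZMod w.length)).val = i := by
            rw [ZMod.val_natCast, Nat.mod_eq_of_lt hi]
          simp only [tt, h1]
          rw [List.getElem?_eq_getElem hi]
        · rintro ⟨k, b⟩ _ hk
          cases b
          · simp at hk
          · exact sc_t _ _ _
    · refine ⟨DD w.length, inferInstance, inferInstance, sg w.length, th w.length, hh w, tt w,
        (fun z => if z.2 then some (j, true, z.1.val) else none), (-1, false), ?_, ?_⟩
      · refine ⟨planar_dd _, hh_th w hfold, fun z => rfl, ?_⟩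
        rintro ⟨k, b⟩ j' s k' hk
        cases b
        · simp at hk
        · simp only [if_true, Option.some.injEq, Prod.mk.injEq] at hk
          obtain ⟨rfl, rfl, rfl⟩ := hk
          refine ⟨r, hRj, ?_, ?_, ?_⟩
          · rw [← hw, List.getElem?_eq_getElem (ZMod.val_lt k), lab_t]
            simp [tt]
          · show some (j, true, (k + 1).val) = _
            rw [val_add_one]
            rfl
          · rw [← hw, ph_pow_t]
            simp
      · have hlen' : (invW w).length = w.length := by simp [invW]
        refine ⟨?_, ?_, ?_, ?_, rfl, ?_⟩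
        · intro h0
          rw [h0] at hlen'
          simp at hlen'
          omega
        · rw [hlen', ph_pow_f]
          simp
        · intro i hi0 hi h1
          rw [hlen'] at hi
          rw [ph_pow_f, Prod.mk.injEq, sub_eq_self] at h1
          have h2 := (ZMod.natCast_eq_zero_iff i w.length).1 h1.1
          exact absurd (Nat.le_of_dvd hi0 h2) (by omega)
        · intro i hi
          rw [hlen'] at hi
          rw [ph_pow_f, lab_f]
          have h1 : ((-1 - i : ZMod w.length)).val = w.length - 1 - i := by
            have h3 : (-1 - i : ZMod w.length) = ((w.length - 1 - i : ℕ) : ZMod w.length) := by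
              rw [Nat.cast_sub (by omega), Nat.cast_sub (by omega)]
              simp
            rw [h3, ZMod.val_natCast, Nat.mod_eq_of_lt (by omega)]
          simp only [tt, h1]
          rw [invW, List.getElem?_reverse (by simpa using hi), List.length_map, List.getElem?_map,
            List.getElem?_eq_getElem (by omega)]
          rfl
        · rintro ⟨k, b⟩ _ hk
          cases b
          · exact sc_ff _ _ _
          · simp at hk
  · intro i x
    -- the spike
    let σ : Perm Bool := Equiv.boolNot
    have hσ : ∀ b, σ b = !b := fun b => rfl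
    have hsc : ∀ a b : Bool, σ.SameCycle a b := by
      intro a b
      cases a <;> cases b
      · exact Perm.SameCycle.refl _ _
      · exact ⟨1, rfl⟩
      · exact ⟨1, rfl⟩
      · exact Perm.SameCycle.refl _ _
    have hnc : nc σ = 1 := by
      rw [nc_eq σ (fun _ => ()) (fun u => ⟨true, rfl⟩) (fun _ => rfl) (fun a b _ => hsc a b)]
      simp
    have hnc1 : nc (1 : Perm Bool) = 2 := by
      rw [nc_eq (1 : Perm Bool) (fun z => z) (fun u => ⟨u, rfl⟩) (fun _ => rfl)]
      · simp
      · intro z w h
        rw [h]
    have hcomps : comps σ 1 = 1 := by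
      unfold comps
      rw [Nat.card_eq_one_iff_unique]
      refine ⟨⟨fun a b => ?_⟩, ⟨Quotient.mk _ true⟩⟩
      obtain ⟨x, rfl⟩ := Quotient.exists_rep a
      obtain ⟨y, rfl⟩ := Quotient.exists_rep b
      apply Quotient.sound
      exact (le_sup_left : Perm.SameCycle.setoid σ ≤ conn σ 1) (hsc x y)
    refine ⟨Bool, inferInstance, inferInstance, σ, 1, (fun b => if b then x else 1), fun _ => i,
      fun _ => none, true, ?_, ?_⟩
    · refine ⟨?_, fun _ => rfl, fun _ => rfl, ?_⟩
      · unfold Planar
        rw [mul_one, hnc, hnc1, hcomps]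
        simp
      · intro d j s k hk
        simp at hk
    · refine ⟨by simp, rfl, ?_, ?_, rfl, ?_⟩
      · intro k hk0 hk
        have : k = 1 := by
          simp only [List.length_cons, List.length_nil] at hk
          omega
        subst this
        rw [mul_one, pow_one]
        decide
      · intro k hk
        simp only [List.length_cons, List.length_nil] at hk
        interval_cases k
        · simp only [List.getElem?_cons_zero]
          show some (i, x) = some (i, (1 : P)⁻¹ * x)
          simp
        · simp only [List.getElem?_cons_succ, List.getElem?_cons_zero]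
          show some (i, x⁻¹) = some (i, x⁻¹ * (1 : P))
          simp
      · intro d _ _
        rw [mul_one]
        exact hsc _ _

end TF48B6
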